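import Pool.Agent.H423.HT.Ext

/-! The set of specialisations where a monic irreducible polynomial becomes reducible is thin. -/

set_option autoImplicit false
set_option linter.all false

namespace Pool.Agent.H423.HT

open Polynomial

theorem exists_le_of_le_map {α β : Type} (θ : α → β) (t : Multiset β) :
    ∀ s : Multiset α, t ≤ s.map θ → ∃ u ≤ s, u.map θ = t := by
  classical
  induction t using Multiset.induction_on with
  | empty => intro s _; exact ⟨0, Multiset.zero_le _, rfl⟩
  | cons a t ih =>
    intro s h
    have ha : a ∈ s.map θ := Multiset.mem_of_le h (Multiset.mem_cons_self a t)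
    obtain ⟨b, hb, rfl⟩ := Multiset.mem_map.mp ha
    have h1 : t ≤ (s.erase b).map θ := by
      rw [Multiset.map_erase_of_mem θ s hb]
      have h2 := Multiset.erase_le_erase (θ b) h
      rwa [Multiset.erase_cons_head] at h2
    obtain ⟨u, hu, hut⟩ := ih (s.erase b) h1
    refine ⟨b ::ₘ u, ?_, by rw [Multiset.map_cons, hut]⟩
    rw [← Multiset.cons_erase hb]
    exact Multiset.cons_le_cons b hu

/-- a cover of degree at least two without section: `g` monic and irreducible of degree at least two
over the field of fractions -/
def Cov {P : Type} [CommRing P] [IsDomain P] (g : P[X]) : Prop :=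
  g.Monic ∧ 2 ≤ g.natDegree ∧ Irreducible (g.map (algebraMap P (FractionRing P)))

/-- the minimal polynomial of an integral element outside the base -/
theorem cov_minpoly {P S : Type} [CommRing P] [IsDomain P] [IsIntegrallyClosed P] [CommRing S]
    [IsDomain S] [Algebra P S] (x : S) (hx : IsIntegral P x)
    (hr : x ∉ (algebraMap P S).range) : Cov (minpoly P x) := by
  have hm := minpoly.monic hx
  refine ⟨hm, ?_, ?_⟩
  · have h1 := minpoly.natDegree_pos hx
    by_contra hlt
    have h2 : (minpoly P x).natDegree = 1 := by omega
    apply hr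
    apply minpoly.mem_range_of_degree_eq_one
    rw [degree_eq_natDegree hm.ne_zero, h2]
    rfl
  · exact hm.irreducible_iff_irreducible_map_fraction_map.mp (minpoly.irreducible hx)

theorem reduction {P : Type} [CommRing P] [IsDomain P] [IsIntegrallyClosed P] (f : P[X])
    (hf : f.Monic) (hD : 1 ≤ f.natDegree)
    (hirr : Irreducible (f.map (algebraMap P (FractionRing P)))) :
    ∃ Γ : Finset P[X], (∀ g ∈ Γ, Cov g) ∧ ∀ (k : Type) [Field k] (e : P →+* k),
      Function.Surjective e → ¬ Irreducible (f.map e) →
      ∃ g ∈ Γ, ∃ y : k, (g.map e).eval y = 0 := by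
  classical
  let K := FractionRing P
  let Ω := AlgebraicClosure K
  have hinjPK : Function.Injective (algebraMap P K) := IsFractionRing.injective P K
  have hinjP : Function.Injective (algebraMap P Ω) := by
    rw [IsScalarTower.algebraMap_eq P K Ω]
    exact (algebraMap K Ω).injective.comp hinjPK
  let R := integralClosure P Ω
  have hRinj : Function.Injective (algebraMap R Ω) := Subtype.val_injective
  have hPR : Function.Injective (algebraMap P R) := by
    intro a b hab
    apply hinjP
    exact congrArg (algebraMap R Ω) hab
  -- the roots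
  set s : Multiset Ω := (f.map (algebraMap P Ω)).roots with hs
  have hfs : f.map (algebraMap P Ω) = (s.map (fun x => X - C x)).prod :=
    (IsAlgClosed.splits _).eq_prod_roots_of_monic (hf.map _)
  have hcard : s.card = f.natDegree := by
    have h := congrArg natDegree hfs
    rw [hf.natDegree_map, natDegree_multiset_prod_X_sub_C_eq_card] at h
    exact h.symm
  have hint : ∀ x ∈ s, IsIntegral P x := by
    intro x hx
    refine ⟨f, hf, ?_⟩
    have h1 := (mem_roots'.mp hx).2
    rwa [IsRoot.def, eval_map] at h1
  have hint' : ∀ x ∈ s, x ∈ R := hint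
  obtain ⟨s', hs'⟩ : ∃ s' : Multiset R, s'.map (algebraMap R Ω) = s := by
    refine ⟨s.attach.map (fun x => (⟨x.1, hint' x.1 x.2⟩ : R)), ?_⟩
    rw [Multiset.map_map]
    exact Multiset.attach_map_val s
  have hcard' : s'.card = f.natDegree := by rw [← hcard, ← hs', Multiset.card_map]
  let G : Multiset R → R[X] := fun u => (u.map (fun x => X - C x)).prod
  have hGmap : ∀ (A : Type) [CommRing A] (θ : R →+* A) (u : Multiset R),
      (G u).map θ = ((u.map θ).map (fun x => X - C x)).prod := by
    intro A _ θ u
    show ((u.map (fun x => X - C x)).prod).map θ = _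
    rw [Polynomial.map_multiset_prod, Multiset.map_map, Multiset.map_map]
    congr 1
    apply Multiset.map_congr rfl
    intro x _
    simp
  have hfG : f.map (algebraMap P R) = G s' := by
    apply Polynomial.map_injective _ hRinj
    rw [hGmap, hs', ← hfs, Polynomial.map_map]
    rfl
  have hGmonic : ∀ u, (G u).Monic := fun u => monic_multiset_prod_of_monic _ _
    (fun x _ => monic_X_sub_C x)
  have hGdeg : ∀ u, (G u).natDegree = u.card := fun u =>
    natDegree_multiset_prod_X_sub_C_eq_card u
  -- the coefficients of a proper factor are not all in `P`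
  have hex : ∀ u ≤ s', u.card ≠ 0 → u.card ≠ s'.card →
      ∃ j, (G u).coeff j ∉ (algebraMap P R).range := by
    intro u hu h0 h1
    by_contra hcon
    push Not at hcon
    have hl : G u ∈ lifts (algebraMap P R) := by
      rw [lifts_iff_coeff_lifts]
      intro n
      exact hcon n
    obtain ⟨g0, hg0, hg0d, hg0m⟩ := lifts_and_natDegree_eq_and_monic hl (hGmonic u)
    have hdvd : G u ∣ G s' := by
      obtain ⟨v, hv⟩ := Multiset.le_iff_exists_add.mp hu
      rw [hv]
      refine ⟨G v, ?_⟩
      show ((u + v).map _).prod = (u.map _).prod * (v.map _).prod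
      rw [Multiset.map_add, Multiset.prod_add]
    have hdvd2 : g0.map (algebraMap P K) ∣ f.map (algebraMap P K) := by
      rw [← map_dvd_map' (algebraMap K Ω), Polynomial.map_map, Polynomial.map_map]
      have h2 := Polynomial.map_dvd (algebraMap R Ω) hdvd
      rw [← hg0, ← hfG, Polynomial.map_map, Polynomial.map_map] at h2
      exact h2
    obtain ⟨q, hq⟩ := hdvd2
    have hdeg0 : (g0.map (algebraMap P K)).natDegree = u.card := by
      rw [hg0m.natDegree_map, hg0d, hGdeg]
    rcases hirr.isUnit_or_isUnit hq with h | h
    · have := natDegree_eq_zero_of_isUnit h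
      omega
    · have h3 := natDegree_eq_zero_of_isUnit h
      have hq0 : q ≠ 0 := h.ne_zero
      have h4 := congrArg natDegree hq
      rw [natDegree_mul (hg0m.map _).ne_zero hq0, h3, hdeg0, hf.natDegree_map] at h4
      omega
  refine ⟨(s'.powerset.toFinset.biUnion fun u => (Finset.range (f.natDegree + 1)).image fun j =>
    minpoly P ((G u).coeff j)).filter (fun g => Cov g), ?_, ?_⟩
  · intro g hg
    exact (Finset.mem_filter.mp hg).2
  · intro k _ e he hred
    obtain ⟨θ, hθ⟩ := ext_hom (P := P) (R := R) (k := k) (kb := AlgebraicClosure k) e he (by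
      rw [(RingHom.injective_iff_ker_eq_bot _).mp hPR]
      exact bot_le)
    have hfm := hf.map e
    rw [hfm.irreducible_iff_natDegree] at hred
    have hne1 : f.map e ≠ 1 := by
      intro h
      have := congrArg natDegree h
      rw [hf.natDegree_map, natDegree_one] at this
      omega
    have h1 : ∃ a b : k[X], a.Monic ∧ b.Monic ∧ a * b = f.map e ∧ a.natDegree ≠ 0 ∧
        b.natDegree ≠ 0 := by
      by_contra hcon
      apply hred
      refine ⟨hne1, ?_⟩
      intro a b ha hb hab
      by_contra h
      rw [not_or] at h
      exact hcon ⟨a, b, ha, hb, hab, h.1, h.2⟩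
    obtain ⟨a, b, ha, hb, hab, ha0, hb0⟩ := h1
    have hsum : a.natDegree + b.natDegree = f.natDegree := by
      rw [← natDegree_mul ha.ne_zero hb.ne_zero, hab, hf.natDegree_map]
    let kb := AlgebraicClosure k
    have hfk : (f.map e).map (algebraMap k kb) = (G s').map θ := by
      rw [← hfG, Polynomial.map_map, Polynomial.map_map]
      congr 1
      exact RingHom.ext (fun p => (hθ p).symm)
    have hdvd : a.map (algebraMap k kb) ∣ (G s').map θ := by
      rw [← hfk, ← hab, Polynomial.map_mul]
      exact dvd_mul_right _ _
    have hle : (a.map (algebraMap k kb)).roots ≤ s'.map θ := by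
      have h2 := roots.le_of_dvd ((hGmonic s').map θ).ne_zero hdvd
      rwa [hGmap, roots_multiset_prod_X_sub_C] at h2
    obtain ⟨u, hu, hut⟩ := exists_le_of_le_map θ _ _ hle
    have hau : a.map (algebraMap k kb) = (G u).map θ := by
      rw [hGmap, hut]
      exact (IsAlgClosed.splits _).eq_prod_roots_of_monic (ha.map _)
    have hucard : u.card = a.natDegree := by
      have h3 := congrArg natDegree hau
      rw [ha.natDegree_map, (hGmonic u).natDegree_map, hGdeg] at h3
      exact h3.symm
    obtain ⟨j, hj⟩ := hex u hu (by omega) (by omega)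
    have hint2 : IsIntegral P ((G u).coeff j) := Algebra.IsIntegral.isIntegral _
    refine ⟨minpoly P ((G u).coeff j), ?_, a.coeff j, ?_⟩
    · rw [Finset.mem_filter]
      refine ⟨?_, cov_minpoly _ hint2 hj⟩
      rw [Finset.mem_biUnion]
      refine ⟨u, ?_, ?_⟩
      · rw [Multiset.mem_toFinset, Multiset.mem_powerset]
        exact hu
      · rw [Finset.mem_image]
        refine ⟨j, ?_, rfl⟩
        rw [Finset.mem_range]
        by_contra hlt
        apply hj
        rw [coeff_eq_zero_of_natDegree_lt (by rw [hGdeg]; omega)]
        exact ⟨0, map_zero _⟩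
    · apply (algebraMap k kb).injective
      rw [map_zero, eval_map, hom_eval₂]
      have h4 : algebraMap k kb (a.coeff j) = θ ((G u).coeff j) := by
        rw [← coeff_map, hau, coeff_map]
      have h5 : (algebraMap k kb).comp e = θ.comp (algebraMap P R) :=
        RingHom.ext (fun p => (hθ p).symm)
      rw [h4, h5, ← hom_eval₂, ← aeval_def, minpoly.aeval, map_zero]

end Pool.Agent.H423.HT
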