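import Pool.Agent.H423.HT.Fin
import Pool.Agent.H423.HT.Red

/-! A monomial which is not a rational function of the values of a generic morphism, and its minimal
polynomial. -/

set_option autoImplicit false
set_option linter.all false

namespace Pool.Agent.H423.HT

open MvPolynomial Pool.Agent.H423.OA

theorem exists_cov {P S : Type} [CommRing P] [IsDomain P] [IsIntegrallyClosed P] [CommRing S]
    [IsDomain S] (φ : P →+* S) (x : S) (hx : φ.IsIntegralElem x) (hr : x ∉ φ.range) :
    ∃ f : Polynomial P, Cov f ∧ f.eval₂ φ x = 0 := by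
  letI := φ.toAlgebra
  exact ⟨minpoly P x, cov_minpoly x hx hr, minpoly.aeval P x⟩

section

variable {k τ ι : Type} [Field k] [Fintype ι] [Fintype τ]

/-- the parameters and the target in terms of the parameters and the starting point -/
noncomputable def Phi (F : ι → MvPolynomial ι (MvPolynomial τ k)) :
    MvPolynomial (τ ⊕ ι) k →+* MvPolynomial ι (MvPolynomial τ k) :=
  eval₂Hom (C.comp C) (Sum.elim (fun a => C (X a)) F)

theorem Phi_inl (F : ι → MvPolynomial ι (MvPolynomial τ k)) (a : MvPolynomial τ k) :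
    Phi F (rename Sum.inl a) = C a := by
  have h : (Phi F).comp ((rename Sum.inl : MvPolynomial τ k →ₐ[k] MvPolynomial (τ ⊕ ι) k) :
      MvPolynomial τ k →+* MvPolynomial (τ ⊕ ι) k) = C := by
    apply MvPolynomial.ringHom_ext
    · intro x
      simp [Phi]
    · intro i
      simp [Phi]
  exact congrArg (fun f => f a) h

theorem Phi_inr (F : ι → MvPolynomial ι (MvPolynomial τ k)) (i : ι) :
    Phi F (X (Sum.inr i)) = F i := by
  simp [Phi]

/-- the field of rational functions of the parameters -/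
abbrev KF (k τ : Type) [Field k] : Type := FractionRing (MvPolynomial τ k)

/-- the generic member -/
noncomputable def gen (F : ι → MvPolynomial ι (MvPolynomial τ k)) : ι → MvPolynomial ι (KF k τ) :=
  fun i => MvPolynomial.map (algebraMap (MvPolynomial τ k) (KF k τ)) (F i)

/-- the generic member has no zero -/
def GenMor (F : ι → MvPolynomial ι (MvPolynomial τ k)) : Prop :=
  ∀ x : ι → AlgebraicClosure (KF k τ), (∀ i, aeval x (gen F i) = 0) → x = 0

theorem map_alg_inj : Function.Injective (MvPolynomial.map (σ := ι)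
    (algebraMap (MvPolynomial τ k) (KF k τ))) :=
  MvPolynomial.map_injective _ (IsFractionRing.injective _ _)

/-- clearing denominators -/
theorem clear (p : MvPolynomial ι (KF k τ)) : ∃ c : MvPolynomial τ k, c ≠ 0 ∧
    ∃ q : MvPolynomial ι (MvPolynomial τ k),
      MvPolynomial.map (algebraMap (MvPolynomial τ k) (KF k τ)) q =
        C (algebraMap _ (KF k τ) c) * p := by
  induction p using MvPolynomial.induction_on with
  | C a =>
    obtain ⟨⟨n, d⟩, hnd⟩ := IsLocalization.surj (nonZeroDivisors (MvPolynomial τ k)) a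
    refine ⟨d, nonZeroDivisors.ne_zero d.2, C n, ?_⟩
    rw [map_C, ← map_mul, mul_comm, ← hnd]
  | add p q hp hq =>
    obtain ⟨c, hc, p', hp'⟩ := hp
    obtain ⟨e, he, q', hq'⟩ := hq
    refine ⟨c * e, mul_ne_zero hc he, C e * p' + C c * q', ?_⟩
    rw [map_add, map_mul, map_mul, map_C, map_C, hp', hq', map_mul, map_mul]
    ring
  | mul_X p i hp =>
    obtain ⟨c, hc, p', hp'⟩ := hp
    refine ⟨c, hc, p' * X i, ?_⟩
    rw [map_mul, hp', map_X]
    ring

/-- the map to polynomials over the field of rational functions of the parameters -/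
noncomputable def Th (F : ι → MvPolynomial ι (MvPolynomial τ k)) :
    MvPolynomial (τ ⊕ ι) k →+* MvPolynomial ι (KF k τ) :=
  (MvPolynomial.map (algebraMap (MvPolynomial τ k) (KF k τ))).comp (Phi F)

theorem clear_adjoin (F : ι → MvPolynomial ι (MvPolynomial τ k)) (x : MvPolynomial ι (KF k τ))
    (hx : x ∈ Algebra.adjoin (KF k τ) (Set.range (gen F))) :
    ∃ c : MvPolynomial τ k, c ≠ 0 ∧ ∃ r : MvPolynomial (τ ⊕ ι) k,
      Th F r = C (algebraMap _ (KF k τ) c) * x := by
  induction hx using Algebra.adjoin_induction with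
  | mem x hx =>
    obtain ⟨i, rfl⟩ := hx
    refine ⟨1, one_ne_zero, X (Sum.inr i), ?_⟩
    rw [map_one, C_1, one_mul]
    show MvPolynomial.map _ (Phi F (X (Sum.inr i))) = _
    rw [Phi_inr]
    rfl
  | algebraMap a =>
    obtain ⟨⟨n, d⟩, hnd⟩ := IsLocalization.surj (nonZeroDivisors (MvPolynomial τ k)) a
    refine ⟨d, nonZeroDivisors.ne_zero d.2, rename Sum.inl n, ?_⟩
    show MvPolynomial.map _ (Phi F _) = _
    rw [Phi_inl, map_C, algebraMap_eq, ← map_mul, mul_comm, ← hnd]
  | add x y hx hy ihx ihy =>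
    obtain ⟨c, hc, p', hp'⟩ := ihx
    obtain ⟨e, he, q', hq'⟩ := ihy
    refine ⟨c * e, mul_ne_zero hc he, rename Sum.inl e * p' + rename Sum.inl c * q', ?_⟩
    have h1 : ∀ a : MvPolynomial τ k, Th F (rename Sum.inl a) = C (algebraMap _ (KF k τ) a) := by
      intro a
      show MvPolynomial.map _ (Phi F _) = _
      rw [Phi_inl, map_C]
    rw [map_add, map_mul, map_mul, h1, h1, hp', hq', map_mul, map_mul]
    ring
  | mul x y hx hy ihx ihy =>
    obtain ⟨c, hc, p', hp'⟩ := ihx
    obtain ⟨e, he, q', hq'⟩ := ihy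
    refine ⟨c * e, mul_ne_zero hc he, p' * q', ?_⟩
    rw [map_mul, hp', hq', map_mul, map_mul]
    ring

theorem exists_int (F : ι → MvPolynomial ι (MvPolynomial τ k)) (d : ℕ) (hd : 1 ≤ d)
    (hF : ∀ i, (F i).IsHomogeneous d) (h0 : GenMor F) (h : MvPolynomial ι (MvPolynomial τ k)) :
    ∃ c : MvPolynomial τ k, c ≠ 0 ∧ (Phi F).IsIntegralElem (C c * h) := by
  classical
  set κ := KF k τ with hκ
  set α := algebraMap (MvPolynomial τ k) κ with hα
  set Q := Algebra.adjoin κ (Set.range (gen F)) with hQ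
  haveI := finite_adjoin (gen F) d hd (fun i => (hF i).map _) h0
  have hint : IsIntegral Q (MvPolynomial.map α h) := IsIntegral.of_finite Q _
  obtain ⟨p, hp, hpr⟩ := hint
  set p' : Polynomial (MvPolynomial ι κ) := p.map (algebraMap Q (MvPolynomial ι κ)) with hp'
  have hp'm : p'.Monic := hp.map _
  have hp'r : p'.eval (MvPolynomial.map α h) = 0 := by
    rw [hp', Polynomial.eval_map]; exact hpr
  have hcoef : ∀ j, p'.coeff j ∈ Q := by
    intro j
    rw [hp', Polynomial.coeff_map]
    exact (p.coeff j).2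
  choose c hc r hr using fun j => clear_adjoin F (p'.coeff j) (hcoef j)
  set D := p'.natDegree with hD
  set c0 : MvPolynomial τ k := ∏ j ∈ Finset.range D, c j with hc0
  have hc0ne : c0 ≠ 0 := Finset.prod_ne_zero_iff.mpr (fun j _ => hc j)
  have hTh : ∀ a : MvPolynomial τ k, Th F (rename Sum.inl a) = C (α a) := by
    intro a
    show MvPolynomial.map _ (Phi F _) = _
    rw [Phi_inl, map_C]
  have hj : ∀ j < D, ∃ r', Th F r' = C (α c0) * p'.coeff j := by
    intro j hj
    refine ⟨rename Sum.inl (∏ l ∈ (Finset.range D).erase j, c l) * r j, ?_⟩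
    rw [map_mul, hTh, hr, ← mul_assoc, ← C_mul, ← map_mul, mul_comm _ (c j),
      Finset.mul_prod_erase _ _ (Finset.mem_range.mpr hj)]
  set p'' := p'.scaleRoots (C (α c0)) with hp''
  have hp''m : p''.Monic := (Polynomial.monic_scaleRoots_iff _).mpr hp'm
  have hl : p'' ∈ Polynomial.lifts (Th F) := by
    rw [Polynomial.lifts_iff_coeff_lifts]
    intro n
    rw [hp'', Polynomial.coeff_scaleRoots]
    by_cases hn : n < D
    · obtain ⟨r', hr'⟩ := hj n hn
      refine ⟨rename Sum.inl c0 ^ (D - n - 1) * r', ?_⟩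
      rw [map_mul, map_pow, hTh, hr', ← hD]
      have e : D - n = (D - n - 1) + 1 := by omega
      conv_rhs => rw [e, pow_succ]
      ring
    · rcases Nat.lt_or_eq_of_le (not_lt.mp hn) with h1 | h1
      · rw [Polynomial.coeff_eq_zero_of_natDegree_lt h1, zero_mul]
        exact ⟨0, map_zero _⟩
      · rw [← h1, hD, Nat.sub_self, pow_zero, mul_one]
        have : p'.coeff p'.natDegree = 1 := hp'm.coeff_natDegree
        rw [this]
        exact ⟨1, map_one _⟩
  obtain ⟨q, hq, -, hqm⟩ := Polynomial.lifts_and_natDegree_eq_and_monic hl hp''m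
  refine ⟨c0, hc0ne, q, hqm, ?_⟩
  apply map_alg_inj (k := k) (τ := τ) (ι := ι)
  rw [map_zero, Polynomial.hom_eval₂]
  show q.eval₂ (Th F) _ = 0
  rw [← Polynomial.eval_map, hq, hp'', map_mul, map_C]
  have h3 := Polynomial.scaleRoots_eval₂_mul (p := p') (RingHom.id _) (MvPolynomial.map α h)
    (C (α c0))
  rw [RingHom.id_apply, Polynomial.eval₂_id, Polynomial.eval₂_id, hp'r, mul_zero] at h3
  exact h3

end

end Pool.Agent.H423.HT
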