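import Pool.Agent.H423.HT.Red
import Pool.Graph.R_seed8.Y706.Tr2
import Pool.Graph.R_seed8.Y706.P5
import Pool.Graph.R_seed8.W275.ND.He4

/-! Thin sets of points over a number field, and their density among the integral points. -/

set_option autoImplicit false
set_option linter.all false

namespace Pool.Agent.H423.HT

open MvPolynomial Pool.Agent.W275.UB Pool.Agent.Y706 NumberField Filter Topology

/-- a thin set: contained in the union of a proper closed subset and of finitely many images of the
rational points of covers of degree at least two without section -/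
def Thin {k σ : Type} [Field k] (E : Set (σ → k)) : Prop :=
  ∃ (c : MvPolynomial σ k) (Γ : Finset (Polynomial (MvPolynomial σ k))), c ≠ 0 ∧
    (∀ g ∈ Γ, Cov g) ∧
    ∀ w ∈ E, eval w c = 0 ∨ ∃ g ∈ Γ, ∃ y : k, (g.map (eval w)).eval y = 0

section

variable {k : Type} [Field k] [NumberField k] {σ J : Type} [Fintype σ] [Fintype J]
  (ω : Module.Basis J ℤ (𝓞 k))

/-- the integral point with coordinates `w` -/
noncomputable def pt (w : σ × J → ℤ) : σ → k := fun i => algebraMap (𝓞 k) k (vec ω w i)

/-- evaluation at the generic point of the ultrapower -/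
noncomputable def rk (U : Ultrafilter (σ × J → ℤ)) : MvPolynomial σ k →ₐ[k] UP U k :=
  aeval (Vk U (zk ω))

theorem rk_apply (U : Ultrafilter (σ × J → ℤ)) (p : MvPolynomial σ k) :
    rk ω U p = up U k fun w => eval (pt ω w) p := by
  have h1 : ∀ i, Vk U (zk ω) i = up U k fun w => pt ω w i := by
    intro i
    rw [← rho_X, rho_apply]
    congr 1
    funext w
    rw [eval_X]
    rfl
  induction p using MvPolynomial.induction_on with
  | C a =>
    rw [rk, aeval_C, algebraMap_up]
    congr 1
    funext w
    rw [eval_C]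
  | add p q hp hq =>
    rw [map_add, hp, hq, ← map_add]
    congr 1
    funext w
    rw [Pi.add_apply, map_add]
  | mul_X p i hp =>
    rw [map_mul, hp]
    have h2 : rk ω U (X i) = up U k fun w => pt ω w i := by
      rw [rk, aeval_X, h1]
    rw [h2, ← map_mul]
    congr 1
    funext w
    rw [Pi.mul_apply, map_mul, eval_X]

theorem rk_inj {U : Ultrafilter (σ × J → ℤ)} (hU : Gen U) : Function.Injective (rk (k := k) ω U) := by
  obtain ⟨j0⟩ : Nonempty J := ω.index_nonempty
  exact (AlgebraicIndependent.sumElim_iff.1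
    (indep_V W883.UB.Dens.main hU (zk ω) j0 (zk_ne ω j0))).1

/-- the zeros of a polynomial have density zero -/
theorem dz_zero (c : MvPolynomial σ k) (hc : c ≠ 0) :
    D0 {w : σ × J → ℤ | eval (pt ω w) c = 0} := by
  intro ε hε
  by_contra hcon
  obtain ⟨U, hU, hUS⟩ := W125.UB.Exu.main (σ × J) {w : σ × J → ℤ | eval (pt ω w) c = 0} (by
    intro h
    exact hcon (h ε hε))
  apply hc
  apply rk_inj ω hU
  rw [map_zero, rk_apply, up_eq_zero]
  exact hUS

/-- rational points of covers have density zero -/
theorem dz_cov (g : Polynomial (MvPolynomial σ k)) (hg : Cov g) :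
    D0 {w : σ × J → ℤ | ∃ y : k, (g.map (eval (pt ω w))).eval y = 0} := by
  classical
  intro ε hε
  by_contra hcon
  obtain ⟨U, hU, hUS⟩ := W125.UB.Exu.main (σ × J)
    {w : σ × J → ℤ | ∃ y : k, (g.map (eval (pt ω w))).eval y = 0} (by
    intro h
    exact hcon (h ε hε))
  obtain ⟨j0⟩ : Nonempty J := ω.index_nonempty
  have h0 : ∀ w : σ × J → ℤ, ∃ y : k, w ∈ {w : σ × J → ℤ | ∃ y : k,
      (g.map (eval (pt ω w))).eval y = 0} → (g.map (eval (pt ω w))).eval y = 0 := by
    intro w
    by_cases h : ∃ y : k, (g.map (eval (pt ω w))).eval y = 0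
    · obtain ⟨y, hy⟩ := h
      exact ⟨y, fun _ => hy⟩
    · exact ⟨0, fun h' => absurd h' h⟩
  choose y hy using h0
  set F := IntermediateField.adjoin k (Set.range (Vk U (zk (k := k) ω))) with hF
  -- the root in the ultrapower
  have hroot : (g.map (rk ω U : MvPolynomial σ k →+* UP U k)).eval (up U k y) = 0 := by
    rw [Polynomial.eval_map, Polynomial.eval₂_eq_sum_range]
    have h1 : ∀ i, (rk ω U : MvPolynomial σ k →+* UP U k) (g.coeff i) * up U k y ^ i =
        up U k fun w => eval (pt ω w) (g.coeff i) * y w ^ i := by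
      intro i
      show rk ω U (g.coeff i) * up U k y ^ i = _
      rw [rk_apply, ← map_pow, ← map_mul]
      rfl
    rw [Finset.sum_congr rfl (fun i _ => h1 i), ← map_sum, up_eq_zero]
    filter_upwards [hUS] with w hw
    have h2 := hy w hw
    rw [Polynomial.eval_map, Polynomial.eval₂_eq_sum_range] at h2
    rw [Finset.sum_apply]
    exact h2
  have hmem : ∀ p, rk ω U p ∈ F := by
    intro p
    induction p using MvPolynomial.induction_on with
    | C a => rw [rk, aeval_C]; exact _root_.algebraMap_mem F a
    | add p q hp hq => rw [map_add]; exact add_mem hp hq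
    | mul_X p i hp =>
      rw [map_mul]
      refine mul_mem hp ?_
      rw [rk, aeval_X]
      exact IntermediateField.subset_adjoin _ _ ⟨i, rfl⟩
  let rF : MvPolynomial σ k →+* F := (rk ω U : MvPolynomial σ k →+* UP U k).codRestrict F hmem
  have halg : IsAlgebraic F (up U k y) := by
    refine ⟨g.map rF, (hg.1.map _).ne_zero, ?_⟩
    rw [Polynomial.aeval_def, Polynomial.eval₂_map]
    rw [Polynomial.eval_map] at hroot
    exact hroot
  have hin := rac W883.UB.Dens.main urel hU (zk ω) j0 (zk_ne ω j0) _ halg
  -- the field of rational functions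
  have hinj : Function.Injective (rk ω U : MvPolynomial σ k →+* UP U k) := rk_inj ω hU
  let psi : FractionRing (MvPolynomial σ k) →+* UP U k := IsFractionRing.lift hinj
  have hpsi : ∀ p, psi (algebraMap _ _ p) = rk ω U p := fun p => IsFractionRing.lift_algebraMap _ _
  have hrange : ∃ q, psi q = up U k y := by
    let G : IntermediateField k (UP U k) :=
      { psi.fieldRange with
        algebraMap_mem' := by
          intro c
          refine ⟨algebraMap _ _ (C c : MvPolynomial σ k), ?_⟩
          rw [hpsi, rk, aeval_C] }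
    have h : F ≤ G := by
      rw [hF, IntermediateField.adjoin_le_iff]
      rintro _ ⟨i, rfl⟩
      refine ⟨algebraMap _ _ (X i : MvPolynomial σ k), ?_⟩
      rw [hpsi, rk, aeval_X]
    exact h hin
  obtain ⟨q, hq⟩ := hrange
  have hgq : (g.map (algebraMap (MvPolynomial σ k) (FractionRing (MvPolynomial σ k)))).eval q = 0 := by
    apply psi.injective
    rw [map_zero, Polynomial.eval_map, Polynomial.hom_eval₂, hq]
    have h3 : psi.comp (algebraMap (MvPolynomial σ k) (FractionRing (MvPolynomial σ k))) =
        (rk ω U : MvPolynomial σ k →+* UP U k) := RingHom.ext hpsi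
    rw [h3, ← Polynomial.eval_map]
    exact hroot
  have h4 := Polynomial.degree_eq_one_of_irreducible_of_root hg.2.2 hgq
  have h5 := hg.2.1
  rw [Polynomial.degree_map_eq_of_injective (IsFractionRing.injective _ _),
    Polynomial.degree_eq_natDegree hg.1.ne_zero] at h4
  have h6 : g.natDegree = 1 := by exact_mod_cast h4
  omega

/-- thin sets have density zero -/
theorem dz_thin {E : Set (σ → k)} (hE : Thin E) : D0 {w : σ × J → ℤ | pt ω w ∈ E} := by
  classical
  obtain ⟨c, Γ, hc, hΓ, hE⟩ := hE
  have h1 : D0 ({w : σ × J → ℤ | eval (pt ω w) c = 0} ∪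
      ⋃ g ∈ Γ, {w : σ × J → ℤ | ∃ y : k, (g.map (eval (pt ω w))).eval y = 0}) := by
    apply (dz_zero ω c hc).union
    revert hΓ
    clear hE hc
    induction Γ using Finset.induction_on with
    | empty =>
      intro _
      simp only [Finset.notMem_empty, Set.iUnion_of_empty, Set.iUnion_empty]
      exact D0.empty
    | insert g Γ hg ih =>
      intro hΓ
      rw [Finset.set_biUnion_insert]
      exact (dz_cov ω g (hΓ g (Finset.mem_insert_self _ _))).union
        (ih (fun g' hg' => hΓ g' (Finset.mem_insert_of_mem hg')))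
  intro ε hε
  refine (h1 ε hε).mono ?_
  intro w hw
  rcases hE _ hw with h | ⟨g, hg, y, hy⟩
  · exact Or.inl h
  · right
    rw [Set.mem_iUnion₂]
    exact ⟨g, hg, y, hy⟩

/-- a property holding outside a thin set holds for all integral points up to a set of density
zero -/
theorem almost_all (P : (σ → 𝓞 k) → Prop) {E : Set (σ → k)} (hE : Thin E)
    (h : ∀ v : σ → 𝓞 k, (fun i => algebraMap (𝓞 k) k (v i)) ∉ E → P v) :
    Tendsto (fun H : ℕ => (({q | q ∈ {q : σ → 𝓞 k | ∀ i j, |ω.repr (q i) j| ≤ (H : ℤ)} ∧ P q} :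
      Set (σ → 𝓞 k)).ncard : ℝ) /
      (({q : σ → 𝓞 k | ∀ i j, |ω.repr (q i) j| ≤ (H : ℤ)}).ncard : ℝ)) atTop (𝓝 1) := by
  refine Pool.Agent.W275.ND.ratioV ω (ι := σ) P ?_
  intro ε hε
  refine (dz_thin ω hE ε hε).mono ?_
  intro w hw
  by_contra hcon
  exact hw (h _ hcon)

end

end Pool.Agent.H423.HT
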