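import Mathlib

/-! Extension of ring homomorphisms to integral extensions. -/

set_option autoImplicit false
set_option linter.all false

namespace Pool.Agent.H423.HT

open Polynomial

/-- a surjective homomorphism to a field extends to an integral extension, with values in an
algebraically closed field -/
theorem ext_hom {P R k kb : Type} [CommRing P] [CommRing R] [Algebra P R] [Algebra.IsIntegral P R]
    [Field k] [Field kb] [IsAlgClosed kb] [Algebra k kb] (e : P →+* k)
    (he : Function.Surjective e) (hker : RingHom.ker (algebraMap P R) ≤ RingHom.ker e) :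
    ∃ θ : R →+* kb, ∀ p, θ (algebraMap P R p) = algebraMap k kb (e p) := by
  have hmax : (RingHom.ker e).IsMaximal := RingHom.ker_isMaximal_of_surjective e he
  obtain ⟨Q, hQ, hQe⟩ := Ideal.exists_ideal_over_maximal_of_isIntegral (S := R) (RingHom.ker e) hker
  letI := Ideal.Quotient.field Q
  have hle : RingHom.ker e ≤ Q.comap (algebraMap P R) := hQe.ge
  let j : k →+* R ⧸ Q := (Ideal.quotientMap Q (algebraMap P R) hle).comp
    (RingHom.quotientKerEquivOfSurjective he).symm.toRingHom
  have hj : ∀ p, j (e p) = Ideal.Quotient.mk Q (algebraMap P R p) := by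
    intro p
    have h1 : (RingHom.quotientKerEquivOfSurjective he).symm (e p) =
        Ideal.Quotient.mk (RingHom.ker e) p := by
      rw [RingEquiv.symm_apply_eq]
      rfl
    show (Ideal.quotientMap Q (algebraMap P R) hle)
      ((RingHom.quotientKerEquivOfSurjective he).symm (e p)) = _
    rw [h1, Ideal.quotientMap_mk]
  letI : Algebra k (R ⧸ Q) := j.toAlgebra
  have halg : Algebra.IsAlgebraic k (R ⧸ Q) := by
    constructor
    intro x
    obtain ⟨r, rfl⟩ := Ideal.Quotient.mk_surjective x
    obtain ⟨p, hp, hpr⟩ := Algebra.IsIntegral.isIntegral (R := P) r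
    refine ⟨p.map e, (hp.map e).ne_zero, ?_⟩
    rw [aeval_def, eval₂_map]
    have h2 : (algebraMap k (R ⧸ Q)).comp e = (Ideal.Quotient.mk Q).comp (algebraMap P R) :=
      RingHom.ext hj
    rw [h2, ← hom_eval₂, hpr, map_zero]
  let l : (R ⧸ Q) →ₐ[k] kb := IsAlgClosed.lift
  refine ⟨l.toRingHom.comp (Ideal.Quotient.mk Q), fun p => ?_⟩
  have h3 := l.commutes (e p)
  have h4 : algebraMap k (R ⧸ Q) (e p) = Ideal.Quotient.mk Q (algebraMap P R p) := hj p
  rw [h4] at h3
  exact h3

end Pool.Agent.H423.HT
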