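import Pool.Agent.H423.OA.Fib

/-! The polynomial ring is finite over the subalgebra generated by forms without common zero. -/

set_option autoImplicit false
set_option linter.all false

namespace Pool.Agent.H423.HT

open MvPolynomial Pool.Agent.H423.OA

section fin

variable {ι A : Type} [Fintype ι] [Field A]

theorem coef_of_mem (G : ι → MvPolynomial ι A) (D : ℕ) (hG : ∀ i, (G i).IsHomogeneous D)
    (M : ℕ) (hM : D ≤ M) (i : ι) (h : (X i : MvPolynomial ι A) ^ M ∈ Ideal.span (Set.range G)) :
    ∃ a : ι → MvPolynomial ι A, (∀ j, (a j).totalDegree ≤ M - D) ∧ ∑ j, a j * G j = X i ^ M := by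
  obtain ⟨c, hc⟩ := (Ideal.mem_span_range_iff_exists_fun).mp h
  refine ⟨fun j => homogeneousComponent (M - D) (c j), fun j => ?_, ?_⟩
  · exact (homogeneousComponent_isHomogeneous _ _).totalDegree_le
  · have h1 := congrArg (homogeneousComponent M) hc
    rw [map_sum, homogeneousComponent_eq_self ((isHomogeneous_X_pow i M))] at h1
    rw [← h1]
    apply Finset.sum_congr rfl
    intro j _
    exact (hcomp_mul _ _ D M (hG j) hM).symm

theorem pow_mem (G : ι → MvPolynomial ι A)
    (h0 : ∀ x : ι → AlgebraicClosure A, (∀ i, aeval x (G i) = 0) → x = 0) :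
    ∃ M0 : ℕ, ∀ M, M0 ≤ M → ∀ i, (X i : MvPolynomial ι A) ^ M ∈ Ideal.span (Set.range G) := by
  have h1 : ∀ i, ∃ m : ℕ, (X i : MvPolynomial ι A) ^ m ∈ Ideal.span (Set.range G) := by
    intro i
    have h := vanishingIdeal_zeroLocus_eq_radical (k := A) (K := AlgebraicClosure A)
      (Ideal.span (Set.range G))
    have hx : (X i : MvPolynomial ι A) ∈
        vanishingIdeal A (zeroLocus (AlgebraicClosure A) (Ideal.span (Set.range G))) := by
      intro x hx
      have hx0 : x = 0 := h0 x (fun j => hx (G j) (Ideal.subset_span ⟨j, rfl⟩))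
      rw [hx0]; simp
    rw [h] at hx
    exact hx
  choose m hm using h1
  refine ⟨∑ i, m i, fun M hM i => ?_⟩
  have hle : m i ≤ M :=
    le_trans (Finset.single_le_sum (fun _ _ => Nat.zero_le _) (Finset.mem_univ i)) hM
  rw [← Nat.sub_add_cancel hle, pow_add]
  exact Ideal.mul_mem_left _ _ (hm i)

theorem finite_adjoin (G : ι → MvPolynomial ι A) (D : ℕ) (hD : 1 ≤ D)
    (hG : ∀ i, (G i).IsHomogeneous D)
    (h0 : ∀ x : ι → AlgebraicClosure A, (∀ i, aeval x (G i) = 0) → x = 0) :
    Module.Finite (Algebra.adjoin A (Set.range G)) (MvPolynomial ι A) := by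
  classical
  obtain ⟨M0, hM0⟩ := pow_mem G h0
  obtain ⟨M, hM1, hM2⟩ : ∃ M, M0 ≤ M ∧ D ≤ M := ⟨max M0 D, le_max_left _ _, le_max_right _ _⟩
  have hc := fun i => coef_of_mem G D hG M hM2 i (hM0 M hM1 i)
  choose a ha hsum using hc
  set B : ℕ := Fintype.card ι * M + 1 with hB
  set Q := Algebra.adjoin A (Set.range G) with hQ
  have hfinset : {m : ι →₀ ℕ | m.degree < B}.Finite := by
    apply Set.Finite.subset (Set.finite_Iic (Finsupp.equivFunOnFinite.symm (fun _ : ι => B)))
    intro m hm i
    simp only [Finsupp.equivFunOnFinite_symm_apply_apply]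
    exact le_trans (Finsupp.le_degree i m) (le_of_lt hm)
  let S : Set (MvPolynomial ι A) := (fun m : ι →₀ ℕ => monomial m 1) '' {m | m.degree < B}
  have hS : S.Finite := hfinset.image _
  let W : Submodule Q (MvPolynomial ι A) := Submodule.span Q S
  have key : ∀ e : ℕ, ∀ p : MvPolynomial ι A, p.totalDegree ≤ e → p ∈ W := by
    intro e
    induction e using Nat.strong_induction_on with
    | _ e ih =>
      intro p hp
      rw [p.as_sum]
      apply Submodule.sum_mem
      intro m hm
      have hmd : m.degree ≤ e := by
        refine le_trans ?_ hp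
        exact le_totalDegree hm
      have hcm : monomial m (coeff m p) =
          (algebraMap A Q (coeff m p)) • (monomial m 1 : MvPolynomial ι A) := by
        rw [algebraMap_smul, smul_monomial, smul_eq_mul, mul_one]
      rw [hcm]
      apply Submodule.smul_mem
      by_cases hlt : m.degree < B
      · exact Submodule.subset_span ⟨m, hlt, rfl⟩
      · push Not at hlt
        have hex : ∃ i, M ≤ m i := by
          by_contra hcon
          push Not at hcon
          have h1 : m.degree ≤ ∑ _i : ι, M := by
            rw [Finsupp.degree_eq_sum]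
            exact Finset.sum_le_sum (fun i _ => (hcon i).le)
          rw [Finset.sum_const, Finset.card_univ, smul_eq_mul] at h1
          omega
        obtain ⟨i, hi⟩ := hex
        set m' : ι →₀ ℕ := m - Finsupp.single i M with hm'
        have hmm : m = m' + Finsupp.single i M := by
          rw [hm', tsub_add_cancel_of_le]
          rwa [Finsupp.single_le_iff]
        have hdeg : m'.degree + M = m.degree := by
          conv_rhs => rw [hmm]
          rw [map_add, Finsupp.degree_single]
        have hmon : (monomial m 1 : MvPolynomial ι A) = ∑ j, (a i j * monomial m' 1) * G j := by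
          have h1 : (monomial m 1 : MvPolynomial ι A) = monomial m' 1 * X i ^ M := by
            rw [X_pow_eq_monomial, monomial_mul, ← hmm, one_mul]
          rw [h1, ← hsum i, Finset.mul_sum]
          apply Finset.sum_congr rfl
          intro j _
          ring
        rw [hmon]
        apply Submodule.sum_mem
        intro j _
        have h2 : (a i j * monomial m' 1) * G j =
            (⟨G j, Algebra.subset_adjoin ⟨j, rfl⟩⟩ : Q) • (a i j * monomial m' 1) := by
          rw [Subalgebra.smul_def, smul_eq_mul, mul_comm]
        rw [h2]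
        apply Submodule.smul_mem
        have hlow : (a i j * monomial m' 1).totalDegree ≤ e - 1 := by
          refine le_trans (totalDegree_mul _ _) ?_
          have h1 := ha i j
          have h2 : (monomial m' (1 : A)).totalDegree = m'.degree := by
            rw [totalDegree_monomial _ one_ne_zero]
            rfl
          rw [h2]
          omega
        have he : 1 ≤ e := by omega
        exact ih (e - 1) (by omega) _ hlow
  refine ⟨⟨hS.toFinset, ?_⟩⟩
  rw [Set.Finite.coe_toFinset]
  rw [eq_top_iff]
  intro p _
  exact key _ p le_rfl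

end fin

end Pool.Agent.H423.HT
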