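import Mathlib

/-! An irreducible polynomial of degree at least two over a perfect field: some element of the
Galois group fixes no root (Jordan). -/

set_option autoImplicit false

namespace Pool.Agent.H423.HT

open Polynomial

/-- a transitive action of a finite group on a set with more than one element: some element of the
group has no fixed point -/
theorem jordan {G X : Type} [Group G] [Finite G] [Finite X] [MulAction G X]
    [MulAction.IsPretransitive G X] [Nontrivial X] : ∃ g : G, ∀ x : X, g • x ≠ x := by
  classical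
  haveI := Fintype.ofFinite G
  haveI := Fintype.ofFinite X
  by_contra hcon
  push Not at hcon
  have h := MulAction.sum_card_fixedBy_eq_card_orbits_mul_card_group G X
  have h1 : Fintype.card (Quotient (MulAction.orbitRel G X)) = 1 := by
    rw [Fintype.card_eq_one_iff]
    obtain ⟨x⟩ := (inferInstance : Nonempty X)
    refine ⟨Quotient.mk _ x, ?_⟩
    intro y
    induction y using Quotient.inductionOn with
    | _ y =>
      apply Quotient.sound
      show y ∈ MulAction.orbit G x
      obtain ⟨g, hg⟩ := MulAction.exists_smul_eq G x y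
      exact ⟨g, hg⟩
  rw [h1, one_mul] at h
  have h2 : ∀ g : G, 1 ≤ Fintype.card (MulAction.fixedBy X g) := by
    intro g
    obtain ⟨x, hx⟩ := hcon g
    rw [Nat.one_le_iff_ne_zero, ← Nat.pos_iff_ne_zero, Fintype.card_pos_iff]
    exact ⟨⟨x, hx⟩⟩
  have h3 : 1 < Fintype.card (MulAction.fixedBy X (1 : G)) := by
    rw [Fintype.one_lt_card_iff]
    obtain ⟨x, y, hxy⟩ := exists_pair_ne X
    exact ⟨⟨x, one_smul _ x⟩, ⟨y, one_smul _ y⟩, fun h => hxy (congrArg Subtype.val h)⟩
  have h4 : ∑ _g : G, 1 < ∑ g : G, Fintype.card (MulAction.fixedBy X g) :=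
    Finset.sum_lt_sum (fun g _ => h2 g) ⟨1, Finset.mem_univ _, h3⟩
  rw [h] at h4
  simp at h4

/-- some element of the absolute Galois group fixes no root of an irreducible polynomial -/
theorem exists_moves {k : Type} [Field k] [CharZero k] (f : k[X]) (hf : Irreducible f)
    (hd : 2 ≤ f.natDegree) :
    ∃ σ : AlgebraicClosure k ≃ₐ[k] AlgebraicClosure k,
      ∀ y : AlgebraicClosure k, aeval y f = 0 → σ y ≠ y := by
  classical
  haveI hs : Fact (map (algebraMap k (AlgebraicClosure k)) f).Splits :=
    ⟨IsAlgClosed.splits _⟩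
  have htr := Gal.galAction_isPretransitive f (AlgebraicClosure k) hf
  have hcard : Fintype.card (f.rootSet (AlgebraicClosure k)) = f.natDegree :=
    card_rootSet_eq_natDegree hf.separable hs.out
  haveI : Nontrivial (f.rootSet (AlgebraicClosure k)) := by
    rw [← Fintype.one_lt_card_iff_nontrivial]
    omega
  obtain ⟨g, hg⟩ := jordan (G := f.Gal) (X := f.rootSet (AlgebraicClosure k))
  obtain ⟨σ, hσ⟩ := Gal.restrict_surjective f (AlgebraicClosure k) g
  refine ⟨σ, fun y hy hfix => ?_⟩
  have hy' : y ∈ f.rootSet (AlgebraicClosure k) := (mem_rootSet_of_ne hf.ne_zero).mpr hy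
  apply hg ⟨y, hy'⟩
  apply Subtype.ext
  rw [← hσ, Gal.restrict_smul]
  exact hfix

end Pool.Agent.H423.HT
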