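import Pool.Agent.H423.HT.Alg

/-! Some monomial of degree `d` is not a polynomial in the values of a morphism of degree `d ≥ 2`. -/

set_option autoImplicit false
set_option linter.all false

namespace Pool.Agent.H423.HT

open MvPolynomial Pool.Agent.H423.OA

section

variable {k τ : Type} [Field k] [Fintype τ]

theorem Phi_monomial {ι : Type} [Fintype ι] (F : ι → MvPolynomial ι (MvPolynomial τ k))
    (s : τ ⊕ ι →₀ ℕ) (c : k) :
    Phi F (monomial s c) = C (C c * ∏ a, X a ^ s (Sum.inl a)) * ∏ i, F i ^ s (Sum.inr i) := by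
  rw [Phi, eval₂Hom_monomial]
  rw [Finsupp.prod_fintype _ _ (fun i => pow_zero _), Fintype.prod_sum_type]
  simp only [Sum.elim_inl, Sum.elim_inr, RingHom.comp_apply, map_mul, map_prod, map_pow]
  rw [mul_assoc]

theorem comp_Phi {ι : Type} [Fintype ι] (F : ι → MvPolynomial ι (MvPolynomial τ k)) (d : ℕ)
    (hd : 1 ≤ d) (hF : ∀ i, (F i).IsHomogeneous d) (r : MvPolynomial (τ ⊕ ι) k) :
    homogeneousComponent d (Phi F r) ∈ Submodule.span (MvPolynomial τ k) (Set.range F) := by
  classical
  rw [r.as_sum, map_sum, map_sum]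
  apply Submodule.sum_mem
  intro s _
  rw [Phi_monomial, homogeneousComponent_C_mul]
  rw [← smul_eq_C_mul]
  apply Submodule.smul_mem
  have hh : (∏ i, F i ^ s (Sum.inr i)).IsHomogeneous (∑ i, d * s (Sum.inr i)) :=
    IsHomogeneous.prod _ _ _ (fun i _ => (hF i).pow _)
  by_cases he : ∑ i, d * s (Sum.inr i) = d
  · -- exactly one factor
    rw [← Finset.mul_sum] at he
    have h1 : ∑ i, s (Sum.inr i) = 1 := by
      have : d * ∑ i, s (Sum.inr i) = d * 1 := by rw [he, mul_one]
      exact Nat.eq_of_mul_eq_mul_left (by omega) this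
    obtain ⟨i0, hi0⟩ : ∃ i0, s (Sum.inr i0) ≠ 0 := by
      by_contra hcon
      push Not at hcon
      rw [Finset.sum_eq_zero (fun i _ => hcon i)] at h1
      exact zero_ne_one h1
    have h2 : s (Sum.inr i0) + ∑ i ∈ Finset.univ.erase i0, s (Sum.inr i) = 1 := by
      rw [Finset.add_sum_erase _ (fun i => s (Sum.inr i)) (Finset.mem_univ i0)]; exact h1
    have h3 : ∑ i ∈ Finset.univ.erase i0, s (Sum.inr i) = 0 := by omega
    have h4 : s (Sum.inr i0) = 1 := by omega
    have h5 : ∏ i, F i ^ s (Sum.inr i) = F i0 := by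
      rw [← Finset.mul_prod_erase _ _ (Finset.mem_univ i0), h4, pow_one]
      rw [Finset.prod_eq_one, mul_one]
      intro i hi
      rw [(Finset.sum_eq_zero_iff.mp h3) i hi, pow_zero]
    rw [h5, homogeneousComponent_eq_self (hF i0)]
    exact Submodule.subset_span ⟨i0, rfl⟩
  · rw [homogeneousComponent_of_mem hh, if_neg (fun h => he h.symm)]
    exact Submodule.zero_mem _

/-- the exponents -/
noncomputable def expo (N d : ℕ) : Option (Fin (N + 2)) → (Fin (N + 2) →₀ ℕ)
  | none => Finsupp.single 0 (d - 1) + Finsupp.single 1 1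
  | some i => Finsupp.single i d

theorem expo_degree (N d : ℕ) (hd : 2 ≤ d) (o : Option (Fin (N + 2))) : (expo N d o).degree = d := by
  cases o with
  | none =>
    simp only [expo, map_add, Finsupp.degree_single]
    omega
  | some i => simp only [expo, Finsupp.degree_single]

theorem expo_inj (N d : ℕ) (hd : 2 ≤ d) : Function.Injective (expo N d) := by
  have h01 : (0 : Fin (N + 2)) ≠ 1 := by
    intro h
    have := congrArg Fin.val h
    simp at this
  have key : ∀ i : Fin (N + 2), Finsupp.single i d ≠
      (Finsupp.single 0 (d - 1) + Finsupp.single 1 1 : Fin (N + 2) →₀ ℕ) := by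
    intro i h
    have h0 := DFunLike.congr_fun h 0
    have h1 := DFunLike.congr_fun h 1
    simp only [Finsupp.add_apply, Finsupp.single_apply, h01, h01.symm, if_false, if_true] at h0 h1
    split_ifs at h0 h1 with ha hb hb <;> omega
  intro a b hab
  cases a with
  | none =>
    cases b with
    | none => rfl
    | some j => exact absurd hab.symm (key j)
  | some i =>
    cases b with
    | none => exact absurd hab (key i)
    | some j =>
      have h2 : Finsupp.single i d = Finsupp.single j d := hab
      rw [Finsupp.single_left_inj (by omega)] at h2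
      rw [h2]

theorem exists_mon (N d : ℕ) (hd : 2 ≤ d)
    (F : Fin (N + 2) → MvPolynomial (Fin (N + 2)) (MvPolynomial τ k))
    (hF : ∀ i, (F i).IsHomogeneous d) :
    ∃ e : Fin (N + 2) →₀ ℕ, e.degree = d ∧ ∀ c : MvPolynomial τ k, c ≠ 0 →
      C c * monomial e 1 ∉ (Phi F).range := by
  classical
  by_contra hcon
  push Not at hcon
  set κ := KF k τ with hκ
  set α := algebraMap (MvPolynomial τ k) κ with hα
  set W := Submodule.span κ (Set.range (gen F)) with hW
  have hWfin : Module.Finite κ W := FiniteDimensional.span_of_finite κ (Set.finite_range _)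
  have hrank : Module.finrank κ W ≤ N + 2 := by
    have h := finrank_range_le_card (R := κ) (b := gen F)
    rw [Fintype.card_fin] at h
    exact h
  -- all these monomials are in `W`
  have hmem : ∀ o, (monomial (expo N d o) 1 : MvPolynomial (Fin (N + 2)) κ) ∈ W := by
    intro o
    obtain ⟨c, hc, r, hr⟩ := hcon (expo N d o) (expo_degree N d hd o)
    have h1 := comp_Phi F d (by omega) hF r
    rw [hr] at h1
    have h2 : (C c * monomial (expo N d o) 1 :
        MvPolynomial (Fin (N + 2)) (MvPolynomial τ k)).IsHomogeneous d := by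
      have h3 : (monomial (expo N d o) (1 : MvPolynomial τ k)).IsHomogeneous d :=
        isHomogeneous_monomial _ (expo_degree N d hd o)
      have := (isHomogeneous_C (Fin (N + 2)) c).mul h3
      rwa [zero_add] at this
    rw [homogeneousComponent_eq_self h2] at h1
    -- map to `κ`
    have h4 : ∀ p ∈ Submodule.span (MvPolynomial τ k) (Set.range F), MvPolynomial.map α p ∈ W := by
      intro p hp
      induction hp using Submodule.span_induction with
      | mem x hx =>
        obtain ⟨i, rfl⟩ := hx
        exact Submodule.subset_span ⟨i, rfl⟩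
      | zero => rw [map_zero]; exact W.zero_mem
      | add x y _ _ hx hy => rw [map_add]; exact W.add_mem hx hy
      | smul a x _ hx =>
        rw [smul_eq_C_mul, map_mul, map_C, ← smul_eq_C_mul]
        exact W.smul_mem _ hx
    have h5 := h4 _ h1
    rw [map_mul, map_C, map_monomial, map_one, ← smul_eq_C_mul] at h5
    have h6 := W.smul_mem (α c)⁻¹ h5
    rwa [smul_smul, inv_mul_cancel₀, one_smul] at h6
    rw [Ne, map_eq_zero_iff _ (IsFractionRing.injective _ _)]
    exact hc
  let v : Option (Fin (N + 2)) → W := fun o => ⟨monomial (expo N d o) 1, hmem o⟩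
  have hli : LinearIndependent κ v := by
    apply LinearIndependent.of_comp W.subtype
    have h7 := (basisMonomials (Fin (N + 2)) κ).linearIndependent.comp (expo N d)
      (expo_inj N d hd)
    have h8 : (W.subtype ∘ v) = (basisMonomials (Fin (N + 2)) κ) ∘ (expo N d) := by
      funext o
      simp only [Function.comp, coe_basisMonomials]
      rfl
    rw [h8]
    exact h7
  have := hli.fintype_card_le_finrank
  rw [Fintype.card_option, Fintype.card_fin] at this
  omega

/-- a certificate for the absence of zeros -/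
theorem exists_cert {ι : Type} [Fintype ι] (F : ι → MvPolynomial ι (MvPolynomial τ k))
    (h0 : GenMor F) :
    ∃ c : MvPolynomial τ k, c ≠ 0 ∧ ∃ M : ℕ, ∀ i, ∃ a : ι → MvPolynomial ι (MvPolynomial τ k),
      ∑ j, a j * F j = C c * X i ^ M := by
  classical
  obtain ⟨M, hM⟩ := pow_mem (gen F) h0
  choose b hb using fun i => (Ideal.mem_span_range_iff_exists_fun).mp (hM M le_rfl i)
  choose c hc a ha using fun p : ι × ι => clear (b p.1 p.2)
  refine ⟨∏ p, c p, Finset.prod_ne_zero_iff.mpr (fun p _ => hc p), M, fun i => ?_⟩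
  refine ⟨fun j => C (∏ p ∈ Finset.univ.erase (i, j), c p) * a (i, j), ?_⟩
  apply map_alg_inj (k := k) (τ := τ) (ι := ι)
  rw [map_sum, map_mul, map_C, map_pow, map_X, ← hb i, Finset.mul_sum]
  apply Finset.sum_congr rfl
  intro j _
  rw [map_mul, map_mul, map_C, ha, ← mul_assoc, ← mul_assoc, ← C_mul, ← map_mul,
    mul_comm _ (c (i, j)), Finset.mul_prod_erase _ _ (Finset.mem_univ _)]
  rfl

end

end Pool.Agent.H423.HT
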