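import Pool.Agent.H423.HT.Mon
import Pool.Agent.H423.HT.Dens
import Pool.Agent.H423.HT.Jor
import Pool.Agent.H423.OA.Main

/-! For the members of an algebraic family of endomorphisms of projective space, and all targets
outside a thin set, both questions have a positive answer. -/

set_option autoImplicit false
set_option linter.all false

namespace Pool.Agent.H423.HT

open MvPolynomial Pool.Agent.H423.OA NumberField

section

variable {k τ : Type} [Field k] [NumberField k] [Fintype τ]

/-- the member of the family with the parameters `t` -/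
noncomputable def memb {ι : Type} (F : ι → MvPolynomial ι (MvPolynomial τ k)) (t : τ → k) :
    ι → MvPolynomial ι k := fun i => MvPolynomial.map (eval t) (F i)

theorem aeval_memb {ι A : Type} [CommRing A] [Algebra k A]
    (F : ι → MvPolynomial ι (MvPolynomial τ k)) (t : τ → k) (x : ι → A) (i : ι) :
    aeval x (memb F t i) = eval₂ ((algebraMap k A).comp (eval t)) x (F i) := by
  rw [memb, aeval_def, eval₂_map]

theorem isMor_memb {ι : Type} [Fintype ι] (F : ι → MvPolynomial ι (MvPolynomial τ k)) (d : ℕ)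
    (hF : ∀ i, (F i).IsHomogeneous d) (c : MvPolynomial τ k) (M : ℕ)
    (hc : ∀ i, ∃ a : ι → MvPolynomial ι (MvPolynomial τ k), ∑ j, a j * F j = C c * X i ^ M)
    (t : τ → k) (ht : eval t c ≠ 0) : IsMor (memb F t) d := by
  refine ⟨fun i => (hF i).map _, ?_⟩
  intro x hx
  funext i
  obtain ⟨a, ha⟩ := hc i
  have h1 := congrArg (eval₂ ((algebraMap k (AlgebraicClosure k)).comp (eval t)) x) ha
  rw [eval₂_sum, eval₂_mul, eval₂_C, eval₂_pow, eval₂_X] at h1
  rw [Finset.sum_eq_zero] at h1
  · rcases mul_eq_zero.mp h1.symm with h | h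
    · exfalso
      apply ht
      exact (map_eq_zero (algebraMap k (AlgebraicClosure k))).mp h
    · exact eq_zero_of_pow_eq_zero h
  · intro j _
    rw [eval₂_mul, ← aeval_memb F, hx j, mul_zero]

theorem spec {N d : ℕ} (hd : 2 ≤ d)
    (F : Fin (N + 2) → MvPolynomial (Fin (N + 2)) (MvPolynomial τ k))
    (hF : ∀ i, (F i).IsHomogeneous d) (e : Fin (N + 2) →₀ ℕ) (he : e.degree = d)
    (c : MvPolynomial τ k) (f : Polynomial (MvPolynomial (τ ⊕ Fin (N + 2)) k)) (hf : Cov f)
    (hfe : f.eval₂ (Phi F) (C c * monomial e 1) = 0) (w : τ ⊕ Fin (N + 2) → k)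
    (hirr : Irreducible (f.map (eval w))) (hmor : IsMor (memb F (w ∘ Sum.inl)) d)
    (hw : w ∘ Sum.inr ≠ 0) : Uniform (memb F (w ∘ Sum.inl)) (w ∘ Sum.inr) := by
  classical
  set t := w ∘ Sum.inl with ht
  set γ := w ∘ Sum.inr with hγ
  set Ft := memb F t with hFt
  have hdeg : 2 ≤ (f.map (eval w)).natDegree := by
    rw [hf.1.natDegree_map]; exact hf.2.1
  obtain ⟨σ, hσ⟩ := exists_moves _ hirr hdeg
  refine uniform_of_galois (n := 1) (by omega) hmor hw ⟨σ, ?_⟩
  intro x hx hz _ hfix
  obtain ⟨z, hz, hpar⟩ := hz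
  rw [Set.mem_singleton_iff] at hz
  subst hz
  rw [add_zero, Function.iterate_one] at hpar
  have hx1 := ev_ne_zero hmor.noZero' hx
  have hγ' := upK_ne_zero (K := k) hw
  -- scale
  obtain ⟨s, hs, hsx⟩ := (par_iff hx1 hγ').mp hpar
  obtain ⟨l, hl⟩ := IsAlgClosed.exists_pow_nat_eq s (n := d) (by omega)
  have hl0 : l ≠ 0 := by
    rintro rfl
    rw [zero_pow (by omega)] at hl
    exact hs hl.symm
  set x' := l • x with hx'
  have hx'0 : x' ≠ 0 := smul_ne_zero hl0 hx
  have hev : ev Ft x' = upK γ := by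
    rw [hx', ev_smul hmor.hom, hl, hsx]
  -- the conjugate
  have hcx : cj σ x' = σ l • cj σ x := by
    funext i
    simp [cj, hx']
  have hfix' : Par (cj σ x') x' := by
    intro i j
    rw [hcx, hx']
    simp only [Pi.smul_apply, smul_eq_mul]
    have := hfix i j
    linear_combination (σ l * l) * this
  obtain ⟨ζ, hζ, hζx⟩ := (par_iff (cj_ne_zero σ hx'0) hx'0).mp hfix'
  have hcu : cj σ (upK γ) = upK γ := by
    funext i
    simp [cj, upK]
  have hζd : ζ ^ d = 1 := by
    have h1 : ev Ft (cj σ x') = upK γ := by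
      rw [← cj_ev, hev, hcu]
    have h2 : ev Ft x' = ζ ^ d • ev Ft (cj σ x') := by
      conv_lhs => rw [hζx]
      exact ev_smul hmor.hom ζ _
    rw [h1, hev] at h2
    obtain ⟨i, hi⟩ := Function.ne_iff.mp hγ'
    have h3 := congrFun h2 i
    rw [Pi.smul_apply, smul_eq_mul] at h3
    simp only [Pi.zero_apply] at hi
    have h4 : (ζ ^ d - 1) * upK γ i = 0 := by linear_combination -h3
    rcases mul_eq_zero.mp h4 with h | h
    · exact sub_eq_zero.mp h
    · exact absurd h hi
  -- evaluation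
  let χ : MvPolynomial (Fin (N + 2)) (MvPolynomial τ k) →+* AlgebraicClosure k :=
    eval₂Hom ((algebraMap k (AlgebraicClosure k)).comp (eval t)) x'
  have hχ : χ.comp (Phi F) = (algebraMap k (AlgebraicClosure k)).comp (eval w) := by
    apply MvPolynomial.ringHom_ext
    · intro a
      simp [χ, Phi]
    · rintro (a | i)
      · simp [χ, Phi, ht]
      · rw [RingHom.comp_apply, Phi_inr, RingHom.comp_apply, eval_X]
        show eval₂ _ x' (F i) = _
        rw [← aeval_memb]
        exact congrFun hev i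
  set u : AlgebraicClosure k := χ (C c * monomial e 1) with hu
  have hroot : Polynomial.aeval u (f.map (eval w)) = 0 := by
    rw [Polynomial.aeval_def, Polynomial.eval₂_map, ← hχ, ← Polynomial.hom_eval₂, hfe, map_zero]
  apply hσ u hroot
  -- `u` is fixed
  have hmon : ∀ y : Fin (N + 2) → AlgebraicClosure k, aeval y (monomial e (1 : k)) =
      ∏ i, y i ^ e i := by
    intro y
    rw [aeval_monomial, map_one, one_mul, Finsupp.prod_fintype _ _ (fun i => pow_zero _)]
  have hu1 : u = algebraMap k (AlgebraicClosure k) (eval t c) * ∏ i, x' i ^ e i := by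
    rw [hu, map_mul]
    simp only [χ, coe_eval₂Hom, eval₂_C, RingHom.comp_apply, eval₂_monomial, map_one, one_mul]
    rw [Finsupp.prod_fintype _ _ (fun i => pow_zero _)]
  have hσx : ∀ i, σ (x' i) = cj σ x' i := fun i => rfl
  have hprod : ∏ i, x' i ^ e i = ∏ i, (cj σ x' i) ^ e i := by
    have h5 : ∀ i, x' i ^ e i = ζ ^ e i * cj σ x' i ^ e i := by
      intro i
      rw [← mul_pow]
      congr 1
      conv_lhs => rw [hζx]
      rfl
    rw [Finset.prod_congr rfl (fun i _ => h5 i), Finset.prod_mul_distrib,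
      Finset.prod_pow_eq_pow_sum, ← Finsupp.degree_eq_sum, he, hζd, one_mul]
  rw [hu1, map_mul, AlgEquiv.commutes, map_prod]
  congr 1
  calc ∏ i, σ (x' i ^ e i) = ∏ i, (cj σ x' i) ^ e i :=
        Finset.prod_congr rfl (fun i _ => by rw [map_pow]; rfl)
    _ = ∏ i, x' i ^ e i := hprod.symm

/-- **Targets outside a thin set.** -/
theorem thin_main {N d : ℕ} (hd : 2 ≤ d)
    (F : Fin (N + 2) → MvPolynomial (Fin (N + 2)) (MvPolynomial τ k))
    (hF : ∀ i, (F i).IsHomogeneous d) (h0 : GenMor F) :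
    Thin {w : τ ⊕ Fin (N + 2) → k | ¬ (IsMor (memb F (w ∘ Sum.inl)) d ∧ w ∘ Sum.inr ≠ 0 ∧
      Uniform (memb F (w ∘ Sum.inl)) (w ∘ Sum.inr))} := by
  classical
  obtain ⟨e, he, hmon⟩ := exists_mon N d hd F hF
  obtain ⟨c, hc, hint⟩ := exists_int F d (by omega) hF h0 (monomial e 1)
  obtain ⟨f, hf, hfe⟩ := exists_cov (Phi F) _ hint (hmon c hc)
  obtain ⟨c', hc', M, hcert⟩ := exists_cert F h0
  obtain ⟨Γ, hΓ, hred⟩ := reduction f hf.1 (by have := hf.2.1; omega) hf.2.2
  have hinl : Function.Injective (rename Sum.inl :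
      MvPolynomial τ k → MvPolynomial (τ ⊕ Fin (N + 2)) k) :=
    rename_injective _ Sum.inl_injective
  refine ⟨rename Sum.inl c' * X (Sum.inr 0), Γ, ?_, hΓ, ?_⟩
  · refine mul_ne_zero ?_ (X_ne_zero _)
    rw [Ne, ← map_zero (rename Sum.inl : MvPolynomial τ k →ₐ[k] MvPolynomial (τ ⊕ Fin (N + 2)) k)]
    exact fun h => hc' (hinl h)
  · intro w hw
    simp only [Set.mem_ofPred_eq] at hw
    by_contra hcon
    rw [not_or] at hcon
    obtain ⟨h1, h2⟩ := hcon
    rw [map_mul, mul_eq_zero, not_or, eval_rename, eval_X] at h1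
    apply hw
    have hmor := isMor_memb F d hF c' M hcert (w ∘ Sum.inl) h1.1
    have hne : w ∘ Sum.inr ≠ 0 := fun h => h1.2 (congrFun h 0)
    refine ⟨hmor, hne, spec hd F hF e he c f hf hfe w ?_ hmor hne⟩
    by_contra hirr
    apply h2
    refine hred k (eval w) ?_ hirr
    intro a
    exact ⟨C a, eval_C a⟩

end

end Pool.Agent.H423.HT
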